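import Mathlib
import Pool.Agent.H733.GB.Lift
import Pool.Graph.R_seed8.Results.MP_54b1e5_al.LiftableSummands

set_option autoImplicit false

namespace Pool.Agent.Results.MP_54b1e5_al.MartinSummands

open Pool.Agent.H733.GB

/-- Assume Martin's axiom for `σ`-centered partial orders and `ℵ₁` dense sets. Let `I` have
cardinality `ℵ₁` and let `Q I` be the group of the functions `I → ℤ` modulo those with countable
support. Every homomorphism from `ℤ ^ I` to `Q I` and every endomorphism of `Q I` is induced by a
row-finite integer matrix, and every non-zero direct summand of `Q I` is isomorphic to `Q I`. -/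
theorem result (MA : MASigmaCentered) (I : Type) (hI : Cardinal.mk I = Cardinal.aleph 1) :
    (∀ T : (I → ℤ) →+ Q I, Induced T) ∧
    (∀ T : Q I →+ Q I, Induced (T.comp (QuotientAddGroup.mk' (CS I)))) ∧
    (∀ A B : AddSubgroup (Q I), IsCompl A B → A ≠ ⊥ → Nonempty (A ≃+ Q I)) := by
  have h1 : ∀ T : (I → ℤ) →+ Q I, Induced T := fun T => lift MA hI.le T
  have h2 : ∀ T : Q I →+ Q I, Induced (T.comp (QuotientAddGroup.mk' (CS I))) :=
    fun T => h1 (T.comp (QuotientAddGroup.mk' _))
  refine ⟨h1, h2, fun A B hAB hA => ?_⟩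
  have hAB' : IsCompl (AddSubgroup.toIntSubmodule A) (AddSubgroup.toIntSubmodule B) :=
    (AddSubgroup.toIntSubmodule (M := Q I)).isCompl_iff.1 hAB
  obtain ⟨c, hc⟩ := h2 (Submodule.projection _ _ hAB').toAddMonoidHom
  have hc' : ∀ f : I → ℤ, Submodule.projection _ _ hAB' (QuotientAddGroup.mk f)
      = QuotientAddGroup.mk (fun a => (c a).sum fun i x => x * f i) := hc
  refine LiftableSummands.result I hI A B hAB hA (AddMonoidHom.pi fun a => ev (c a)) fun f => ?_
  have h3 : (QuotientAddGroup.mk ((AddMonoidHom.pi fun a => ev (c a)) f) : Q I)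
      = Submodule.projection _ _ hAB' (QuotientAddGroup.mk f) := (hc' f).symm
  constructor
  · rw [h3]
    exact Submodule.projection_apply_mem hAB' _
  · rw [QuotientAddGroup.mk_sub, h3]
    rw [← Submodule.projection_eq_self_sub_projection hAB']
    exact Submodule.projection_apply_mem hAB'.symm _

end Pool.Agent.Results.MP_54b1e5_al.MartinSummands
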